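import Mathlib

/-!
The parity of the 2-rank of the sandpile groups of the Cayley graphs of `F_2^r`.
-/

namespace Pool.Agent.Results.MP_8ee885_co.ParityOfRank

open Module

/-- The space `F_2^r`. -/
abbrev Sp (r : ℕ) : Type := Fin r → ZMod 2

/-- The multiplicity of `u` in the list `v`. -/
def mult {r n : ℕ} (v : Fin n → Sp r) (u : Sp r) : ℕ :=
  (Finset.univ.filter fun i => v i = u).card

/-- The standing assumptions: nonzero vectors, spanning, coprime multiplicities. -/
def Admissible {r n : ℕ} (v : Fin n → Sp r) : Prop :=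
  (∀ i, v i ≠ 0) ∧ Submodule.span (ZMod 2) (Set.range v) = ⊤ ∧
    (Finset.univ.filter fun u => 0 < mult v u).gcd (mult v) = 1

/-- The Laplacian of the Cayley graph. -/
def lap {r n : ℕ} (v : Fin n → Sp r) : Matrix (Sp r) (Sp r) ℤ :=
  Matrix.of fun w w' =>
    if w = w' then (n : ℤ) else -((Finset.univ.filter fun i => w + v i = w').card : ℤ)

/-- The eigenvalue of the Laplacian belonging to `u`. -/
def eig {r n : ℕ} (v : Fin n → Sp r) (u : Sp r) : ℤ :=
  n - ∑ i, if u ⬝ᵥ v i = 0 then 1 else -1

/-- The image of the Laplacian. -/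
def image {r n : ℕ} (v : Fin n → Sp r) : Submodule ℤ (Sp r → ℤ) :=
  LinearMap.range (Matrix.toLin' (lap v))

/-- The cokernel of the Laplacian. -/
def Coker {r n : ℕ} (v : Fin n → Sp r) : Type := (Sp r → ℤ) ⧸ image v

instance {r n : ℕ} (v : Fin n → Sp r) : AddCommGroup (Coker v) :=
  Submodule.Quotient.addCommGroup (image v)

/-- The sandpile group: the torsion subgroup of the cokernel of the Laplacian. -/
def Sandpile {r n : ℕ} (v : Fin n → Sp r) : Type := AddCommGroup.torsion (Coker v)

instance {r n : ℕ} (v : Fin n → Sp r) : AddCommGroup (Sandpile v) :=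
  AddSubgroup.toAddCommGroup (AddCommGroup.torsion (Coker v))

/-- The dimension over `F_2` of the sandpile group modulo 2, which is the number of even
invariant factors. -/
noncomputable def d {r n : ℕ} (v : Fin n → Sp r) : ℕ := finrank (ZMod 2) (ModN (Sandpile v) 2)

/-! ### Alternating forms have even rank -/

section alt

variable {K V : Type} [Field K] [AddCommGroup V] [Module K V] [FiniteDimensional K V]
  (B : V →ₗ[K] V →ₗ[K] K)

/-- The radical of the restriction of `B` to `U`. -/
def rad (U : Submodule K V) : Submodule K V where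
  carrier := {z | z ∈ U ∧ ∀ w ∈ U, B z w = 0}
  zero_mem' := ⟨U.zero_mem, by simp⟩
  add_mem' := by
    rintro a b ⟨h1, h2⟩ ⟨h3, h4⟩
    exact ⟨U.add_mem h1 h3, fun w hw => by simp [h2 w hw, h4 w hw]⟩
  smul_mem' := by
    rintro c a ⟨h1, h2⟩
    exact ⟨U.smul_mem c h1, fun w hw => by simp [h2 w hw]⟩

omit [FiniteDimensional K V] in
theorem mem_rad (U : Submodule K V) (z : V) : z ∈ rad B U ↔ z ∈ U ∧ ∀ w ∈ U, B z w = 0 := Iff.rfl

theorem even_rank (hB : ∀ x, B x x = 0) : ∀ (n : ℕ) (U : Submodule K V), finrank K U = n →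
    Even (finrank K U + finrank K (rad B U)) := by
  have hskew : ∀ x y, B x y = - B y x := by
    intro x y
    have h := hB (x + y)
    simp only [LinearMap.add_apply, map_add] at h
    rw [hB x, hB y] at h
    linear_combination h
  intro n
  induction n using Nat.strong_induction_on with
  | _ n ih =>
    intro U hU
    by_cases h0 : ∀ x ∈ U, ∀ y ∈ U, B x y = 0
    · have : rad B U = U := by
        ext z
        rw [mem_rad]
        exact ⟨fun h => h.1, fun h => ⟨h, h0 z h⟩⟩
      rw [this]
      exact ⟨_, rfl⟩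
    · push Not at h0
      obtain ⟨x, hx, y, hy, hxy⟩ := h0
      have hyx : B y x ≠ 0 := by
        intro h
        apply hxy
        rw [hskew, h, neg_zero]
      -- the map to the plane
      let f : U →ₗ[K] (Fin 2 → K) :=
        LinearMap.pi ![(B x).comp U.subtype, (B y).comp U.subtype]
      have hf : ∀ z : U, f z = ![B x z, B y z] := by
        intro z
        ext i
        fin_cases i <;> rfl
      have hsurj : LinearMap.range f = ⊤ := by
        rw [LinearMap.range_eq_top]
        intro c
        refine ⟨(c 0 / B x y) • ⟨y, hy⟩ + (c 1 / B y x) • ⟨x, hx⟩, ?_⟩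
        rw [hf]
        ext i
        fin_cases i
        · simp [hB, hxy]
        · simp [hB, hyx]
      let U' : Submodule K V := (LinearMap.ker f).map U.subtype
      have hU' : ∀ z, z ∈ U' ↔ z ∈ U ∧ B x z = 0 ∧ B y z = 0 := by
        intro z
        constructor
        · rintro ⟨w, hw, rfl⟩
          have h1 : f w = 0 := hw
          rw [hf] at h1
          exact ⟨w.2, congrFun h1 0, congrFun h1 1⟩
        · rintro ⟨h1, h2, h3⟩
          refine ⟨⟨z, h1⟩, ?_, rfl⟩
          show f ⟨z, h1⟩ = 0
          rw [hf]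
          ext i
          fin_cases i
          · exact h2
          · exact h3
      have hd : finrank K U' = finrank K (LinearMap.ker f) :=
        LinearEquiv.finrank_eq (Submodule.equivMapOfInjective _ U.injective_subtype _).symm
      have hrk := LinearMap.finrank_range_add_finrank_ker f
      rw [hsurj, finrank_top, finrank_fin_fun] at hrk
      have hrad : rad B U' = rad B U := by
        ext z
        rw [mem_rad, mem_rad, hU']
        constructor
        · rintro ⟨⟨h1, h2, h3⟩, h4⟩
          refine ⟨h1, fun w hw => ?_⟩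
          -- decompose `w`
          let a := B x w / B x y
          let b := B y w / B y x
          have hw' : w - a • y - b • x ∈ U' := by
            rw [hU']
            refine ⟨U.sub_mem (U.sub_mem hw (U.smul_mem _ hy)) (U.smul_mem _ hx), ?_, ?_⟩
            · simp only [map_sub, map_smul, smul_eq_mul, hB, mul_zero, sub_zero, a]
              rw [div_mul_cancel₀ _ hxy, sub_self]
            · simp only [map_sub, map_smul, smul_eq_mul, hB, mul_zero, sub_zero, b]
              rw [div_mul_cancel₀ _ hyx, sub_self]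
          have h5 := h4 _ hw'
          simp only [map_sub, map_smul, smul_eq_mul] at h5
          rw [hskew z y, h3, hskew z x, h2] at h5
          simpa using h5
        · rintro ⟨h1, h2⟩
          refine ⟨⟨h1, ?_, ?_⟩, ?_⟩
          · rw [hskew, h2 x hx, neg_zero]
          · rw [hskew, h2 y hy, neg_zero]
          · intro w hw
            exact h2 w ((hU' w).1 hw).1
      have := ih (finrank K U') (by omega) U' rfl
      rw [hrad] at this
      obtain ⟨k, hk⟩ := this
      exact ⟨k + 1, by omega⟩

end alt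

/-! ### Characters of `F_2^r` -/

section chars

variable {r : ℕ}

/-- The character of `F_2^r` belonging to `u`. -/
def chi (u w : Sp r) : ℤ := if u ⬝ᵥ w = 0 then 1 else -1

theorem two_cases (a : ZMod 2) : a = 0 ∨ a = 1 := by
  revert a; decide

theorem chi_add (u w w' : Sp r) : chi u (w + w') = chi u w * chi u w' := by
  unfold chi
  rw [dotProduct_add]
  rcases two_cases (u ⬝ᵥ w) with h | h <;> rcases two_cases (u ⬝ᵥ w') with h' | h' <;>
    rw [h, h'] <;> decide

theorem chi_comm (u w : Sp r) : chi u w = chi w u := by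
  unfold chi
  rw [dotProduct_comm]

theorem chi_zero (u : Sp r) : chi u 0 = 1 := by
  unfold chi; simp

theorem chi_zero_left (u : Sp r) : chi 0 u = 1 := by
  rw [chi_comm, chi_zero]

theorem chi_ne_one {w : Sp r} (hw : w ≠ 0) : ∃ u, chi u w = -1 := by
  obtain ⟨i, hi⟩ : ∃ i, w i ≠ 0 := by
    by_contra hc
    push Not at hc
    exact hw (funext hc)
  refine ⟨Pi.single i 1, ?_⟩
  unfold chi
  rw [single_dotProduct, one_mul, if_neg hi]

theorem sum_chi (w : Sp r) : ∑ u, chi u w = if w = 0 then (2 : ℤ) ^ r else 0 := by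
  by_cases hw : w = 0
  · subst hw
    simp [chi_zero]
  · rw [if_neg hw]
    obtain ⟨u₀, hu₀⟩ := chi_ne_one hw
    have h1 : ∑ u, chi (u + u₀) w = ∑ u, chi u w :=
      Equiv.sum_comp (Equiv.addRight u₀) fun u => chi u w
    have h2 : ∑ u, chi (u + u₀) w = - ∑ u, chi u w := by
      rw [← Finset.sum_neg_distrib]
      refine Finset.sum_congr rfl fun u _ => ?_
      rw [chi_comm, chi_add, chi_comm w u₀, hu₀, chi_comm w u]
      ring
    rw [h2] at h1
    linarith

theorem sub_eq_add' (a b : Sp r) : a - b = a + b := by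
  rw [sub_eq_add_neg]
  congr 1
  funext i
  have : ∀ a : ZMod 2, -a = a := by decide
  exact this _

theorem add_self' (a : Sp r) : a + a = 0 := by
  rw [← sub_eq_add', sub_self]

variable {n : ℕ} (v : Fin n → Sp r)

theorem eig_eq (u : Sp r) : eig v u = n - ∑ i, chi u (v i) := rfl

theorem sum_mult (F : Sp r → ℤ) : ∑ i, F (v i) = ∑ u, (mult v u : ℤ) * F u := by
  have h1 : ∀ i, F (v i) = ∑ u, if v i = u then F u else 0 := by
    intro i
    simp
  rw [Finset.sum_congr rfl fun i _ => h1 i, Finset.sum_comm]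
  refine Finset.sum_congr rfl fun u _ => ?_
  rw [← Finset.sum_filter, Finset.sum_const, nsmul_eq_mul]
  rfl

theorem sum_mult_nat : ∑ u, mult v u = n := by
  have := sum_mult v (fun _ => 1)
  simp only [mul_one, Finset.sum_const, Finset.card_univ, Fintype.card_fin, nsmul_eq_mul] at this
  exact_mod_cast this.symm

theorem sum_eig {w : Sp r} (hw : w ≠ 0) : ∑ u, eig v u * chi u w = -(2 ^ r * mult v w : ℤ) := by
  have h1 : ∀ u, eig v u * chi u w = n * chi u w - ∑ i, chi u (v i + w) := by
    intro u
    rw [eig_eq, sub_mul, Finset.sum_mul]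
    congr 1
    exact Finset.sum_congr rfl fun i _ => (chi_add _ _ _).symm
  rw [Finset.sum_congr rfl fun u _ => h1 u, Finset.sum_sub_distrib, ← Finset.mul_sum, sum_chi,
    if_neg hw, mul_zero, zero_sub, Finset.sum_comm]
  congr 1
  have h2 : ∀ i, ∑ u, chi u (v i + w) = if v i = w then (2 : ℤ) ^ r else 0 := by
    intro i
    rw [sum_chi, ← sub_eq_add']
    simp only [sub_eq_zero]
  rw [Finset.sum_congr rfl fun i _ => h2 i, ← Finset.sum_filter, Finset.sum_const, nsmul_eq_mul]
  unfold mult
  ring

theorem lap_apply (hv : ∀ i, v i ≠ 0) (w w' : Sp r) :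
    lap v w w' = (if w = w' then (n : ℤ) else 0) - mult v (w + w') := by
  have e : (Finset.univ.filter fun i => w + v i = w') = Finset.univ.filter fun i => v i = w + w' := by
    ext i
    simp only [Finset.mem_filter, Finset.mem_univ, true_and]
    constructor
    · rintro rfl
      rw [← add_assoc, add_self', zero_add]
    · intro h
      rw [h, ← add_assoc, add_self', zero_add]
  show (if w = w' then (n : ℤ) else -((Finset.univ.filter fun i => w + v i = w').card : ℤ)) = _
  rw [e]
  by_cases h : w = w'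
  · subst h
    have h0 : mult v (w + w) = 0 := by
      unfold mult
      rw [Finset.card_eq_zero, Finset.filter_eq_empty_iff]
      intro i _
      rw [← sub_eq_add', sub_self]
      exact hv i
    rw [if_pos rfl, if_pos rfl, h0]
    simp
  · rw [if_neg h, if_neg h]
    unfold mult
    ring

theorem lap_mulVec_chi (hv : ∀ i, v i ≠ 0) (u : Sp r) :
    (lap v).mulVec (chi u) = eig v u • chi u := by
  funext w
  rw [Matrix.mulVec, dotProduct]
  simp only [lap_apply v hv, sub_mul, Finset.sum_sub_distrib, ite_mul, zero_mul,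
    Finset.sum_ite_eq, Finset.mem_univ, if_true, Pi.smul_apply, smul_eq_mul, eig_eq]
  congr 1
  have h1 : ∑ x, (mult v (w + x) : ℤ) * chi u x = ∑ x, (mult v x : ℤ) * chi u (w + x) := by
    rw [← Equiv.sum_comp (Equiv.addLeft w) fun x => (mult v x : ℤ) * chi u (w + x)]
    refine Finset.sum_congr rfl fun x _ => ?_
    rw [Equiv.coe_addLeft, ← add_assoc, add_self', zero_add]
  rw [h1, sum_mult v (chi u), Finset.sum_mul]
  refine Finset.sum_congr rfl fun x _ => ?_
  rw [chi_add]
  ring

theorem eig_zero : eig v 0 = 0 := by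
  rw [eig_eq]
  simp [chi_zero_left]

theorem eig_pos (hs : Submodule.span (ZMod 2) (Set.range v) = ⊤) {u : Sp r} (hu : u ≠ 0) :
    0 < eig v u := by
  -- some generator is not orthogonal to `u`
  obtain ⟨i, hi⟩ : ∃ i, u ⬝ᵥ v i ≠ 0 := by
    by_contra hc
    push Not at hc
    have h1 : ∀ w ∈ Submodule.span (ZMod 2) (Set.range v), u ⬝ᵥ w = 0 := by
      intro w hw
      induction hw using Submodule.span_induction with
      | mem x hx => obtain ⟨i, rfl⟩ := hx; exact hc i
      | zero => exact dotProduct_zero _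
      | add x y _ _ hx hy => rw [dotProduct_add, hx, hy, add_zero]
      | smul c x _ hx => rw [dotProduct_smul, hx, smul_zero]
    obtain ⟨w, hw⟩ := chi_ne_one hu
    have h2 := h1 w (by rw [hs]; trivial)
    rw [chi_comm] at hw
    unfold chi at hw
    rw [if_pos h2] at hw
    exact absurd hw (by decide)
  have h1 : ∑ j, chi u (v j) < ∑ _j : Fin n, (1 : ℤ) := by
    refine Finset.sum_lt_sum (fun j _ => ?_) ⟨i, Finset.mem_univ _, ?_⟩
    · unfold chi; split_ifs <;> norm_num
    · unfold chi; rw [if_neg hi]; norm_num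
  rw [eig_eq]
  simp only [Finset.sum_const, Finset.card_univ, Fintype.card_fin, nsmul_eq_mul, mul_one] at h1
  linarith

/-- Every vector with sum zero has a nonzero multiple in the image of the Laplacian. -/
theorem exists_multiple (hv : ∀ i, v i ≠ 0)
    (hs : Submodule.span (ZMod 2) (Set.range v) = ⊤) (x : Sp r → ℤ) (hx : ∑ w, x w = 0) :
    ∃ m : ℕ, 0 < m ∧ m • x ∈ image v := by
  classical
  let S : Finset (Sp r) := Finset.univ.erase 0
  let Λ : ℤ := ∏ u ∈ S, eig v u
  have hΛ : 0 < Λ := Finset.prod_pos fun u hu => eig_pos v hs (Finset.ne_of_mem_erase hu)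
  let c : Sp r → ℤ := fun u => ∑ w, x w * chi u w
  let y : Sp r → ℤ := ∑ u ∈ S, (c u * ∏ u' ∈ S.erase u, eig v u') • chi u
  have h1 : (lap v).mulVec y = (2 ^ r * Λ) • x := by
    have h2 : (lap v).mulVec y = ∑ u ∈ S, (c u * Λ) • chi u := by
      show (lap v).mulVec (∑ u ∈ S, (c u * ∏ u' ∈ S.erase u, eig v u') • chi u) = _
      rw [Matrix.mulVec_sum]
      refine Finset.sum_congr rfl fun u hu => ?_
      rw [Matrix.mulVec_smul, lap_mulVec_chi v hv, smul_smul]
      congr 1
      rw [mul_assoc, Finset.prod_erase_mul S _ hu]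
    have h3 : ∑ u ∈ S, (c u * Λ) • chi u = ∑ u, (c u * Λ) • chi u := by
      rw [← Finset.add_sum_erase Finset.univ _ (Finset.mem_univ (0 : Sp r))]
      have : c 0 = 0 := by
        show ∑ w, x w * chi 0 w = 0
        simp only [chi_zero_left, mul_one]
        exact hx
      rw [this]
      simp [S]
    rw [h2, h3]
    funext w
    rw [Finset.sum_apply]
    simp only [Pi.smul_apply, smul_eq_mul]
    have h4 : ∀ u, c u * Λ * chi u w = ∑ w', Λ * x w' * chi u (w' + w) := by
      intro u
      show (∑ w', x w' * chi u w') * Λ * chi u w = _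
      rw [Finset.sum_mul, Finset.sum_mul]
      refine Finset.sum_congr rfl fun w' _ => ?_
      rw [chi_add]; ring
    rw [Finset.sum_congr rfl fun u _ => h4 u, Finset.sum_comm]
    have h5 : ∀ w', ∑ u, Λ * x w' * chi u (w' + w) =
        if w' = w then Λ * x w' * 2 ^ r else 0 := by
      intro w'
      rw [← Finset.mul_sum, sum_chi, ← sub_eq_add']
      simp only [sub_eq_zero, mul_ite, mul_zero]
    rw [Finset.sum_congr rfl fun w' _ => h5 w', Finset.sum_ite_eq' Finset.univ w]
    simp only [Finset.mem_univ, if_true]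
    ring
  refine ⟨(2 ^ r * Λ).toNat, ?_, ?_⟩
  · have : 0 < 2 ^ r * Λ := by positivity
    omega
  · refine ⟨y, ?_⟩
    rw [Matrix.toLin'_apply, h1]
    have : 0 ≤ 2 ^ r * Λ := by positivity
    rw [← natCast_zsmul, Int.toNat_of_nonneg this]

/-! ### The sandpile group and homomorphisms to `F_2` -/

theorem lap_comm (hv : ∀ i, v i ≠ 0) (w w' : Sp r) : lap v w w' = lap v w' w := by
  rw [lap_apply v hv, lap_apply v hv, add_comm w' w]
  simp only [eq_comm]

theorem sum_lap (hv : ∀ i, v i ≠ 0) (w : Sp r) : ∑ w', lap v w' w = 0 := by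
  have h1 := congrFun (lap_mulVec_chi v hv 0) w
  rw [eig_zero, zero_smul, Matrix.mulVec, dotProduct] at h1
  simp only [chi_zero_left, mul_one, Pi.zero_apply] at h1
  rw [← h1]
  exact Finset.sum_congr rfl fun w' _ => lap_comm v hv w' w

theorem sum_mulVec (hv : ∀ i, v i ≠ 0) (y : Sp r → ℤ) : ∑ w, (lap v).mulVec y w = 0 := by
  simp only [Matrix.mulVec, dotProduct]
  rw [Finset.sum_comm]
  refine Finset.sum_eq_zero fun w _ => ?_
  rw [← Finset.sum_mul, sum_lap v hv, zero_mul]

/-- The sum of the coordinates. -/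
def coordSum : (Sp r → ℤ) →+ ℤ where
  toFun x := ∑ w, x w
  map_zero' := by simp
  map_add' x y := by simp [Finset.sum_add_distrib]

/-- The sum of the coordinates on the cokernel. -/
def sumHom (hv : ∀ i, v i ≠ 0) : Coker v →+ ℤ :=
  QuotientAddGroup.lift (image v).toAddSubgroup coordSum (by
    rintro _ ⟨y, rfl⟩
    rw [Matrix.toLin'_apply]
    exact sum_mulVec v hv y)

/-- The class of a vector in the cokernel. -/
def mk (x : Sp r → ℤ) : Coker v := Submodule.Quotient.mk x

theorem sumHom_mk (hv : ∀ i, v i ≠ 0) (x : Sp r → ℤ) : sumHom v hv (mk v x) = ∑ w, x w := rfl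

theorem mk_surj (c : Coker v) : ∃ x, mk v x = c := Submodule.Quotient.mk_surjective _ c

theorem mk_add (x y : Sp r → ℤ) : mk v (x + y) = mk v x + mk v y := rfl

theorem mk_eq_zero (x : Sp r → ℤ) : mk v x = 0 ↔ x ∈ image v := Submodule.Quotient.mk_eq_zero _

theorem mem_torsion_iff (hv : ∀ i, v i ≠ 0) (hs : Submodule.span (ZMod 2) (Set.range v) = ⊤)
    (c : Coker v) : c ∈ AddCommGroup.torsion (Coker v) ↔ sumHom v hv c = 0 := by
  constructor
  · intro hc
    obtain ⟨m, hm, h⟩ := isOfFinAddOrder_iff_nsmul_eq_zero.1 hc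
    have h1 := congrArg (sumHom v hv) h
    rw [map_nsmul, map_zero, nsmul_eq_mul] at h1
    exact (mul_eq_zero.1 h1).resolve_left (by exact_mod_cast hm.ne')
  · intro hc
    obtain ⟨x, rfl⟩ := mk_surj v c
    rw [sumHom_mk] at hc
    obtain ⟨m, hm, h⟩ := exists_multiple v hv hs x hc
    refine isOfFinAddOrder_iff_nsmul_eq_zero.2 ⟨m, hm, ?_⟩
    have h1 : m • mk v x = mk v (m • x) := rfl
    rw [h1, mk_eq_zero]
    exact h

/-- A class with coordinate sum one. -/
def one : Coker v := mk v (Pi.single 0 1)

theorem sumHom_one (hv : ∀ i, v i ≠ 0) : sumHom v hv (one v) = 1 := by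
  unfold one
  rw [sumHom_mk]
  simp

/-- The splitting of the cokernel. -/
def splitEquiv (hv : ∀ i, v i ≠ 0) (hs : Submodule.span (ZMod 2) (Set.range v) = ⊤) :
    Coker v ≃+ ℤ × Sandpile v where
  toFun c := (sumHom v hv c, ⟨c - sumHom v hv c • one v, by
    rw [mem_torsion_iff v hv hs, map_sub, map_zsmul, sumHom_one]; simp⟩)
  invFun p := p.1 • one v + p.2.1
  left_inv c := by
    show sumHom v hv c • one v + (c - sumHom v hv c • one v) = c
    abel
  right_inv := by
    rintro ⟨k, t, ht⟩
    have h1 : sumHom v hv (k • one v + t) = k := by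
      rw [map_add, map_zsmul, sumHom_one, (mem_torsion_iff v hv hs t).1 ht]; simp
    refine Prod.ext h1 (Subtype.ext ?_)
    show k • one v + t - sumHom v hv (k • one v + t) • one v = t
    rw [h1]; abel
  map_add' c c' := by
    refine Prod.ext (map_add _ _ _) (Subtype.ext ?_)
    show c + c' - sumHom v hv (c + c') • one v =
      (c - sumHom v hv c • one v) + (c' - sumHom v hv c' • one v)
    rw [map_add, add_smul]; abel

/-- Homomorphisms from a product. -/
def homProd (A B C : Type) [AddCommGroup A] [AddCommGroup B] [AddCommGroup C] :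
    (A × B →+ C) ≃ (A →+ C) × (B →+ C) where
  toFun f := (f.comp (AddMonoidHom.inl A B), f.comp (AddMonoidHom.inr A B))
  invFun p := p.1.coprod p.2
  left_inv f := by
    ext x
    simp
  right_inv p := by
    refine Prod.ext ?_ ?_ <;> ext x <;> simp

/-- Homomorphisms from isomorphic groups. -/
def homCongr {A B : Type} (C : Type) [AddCommGroup A] [AddCommGroup B] [AddCommGroup C]
    (e : A ≃+ B) : (A →+ C) ≃ (B →+ C) where
  toFun f := f.comp e.symm.toAddMonoidHom
  invFun f := f.comp e.toAddMonoidHom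
  left_inv f := by ext x; simp
  right_inv f := by ext x; simp

theorem card_hom_coker (hv : ∀ i, v i ≠ 0) (hs : Submodule.span (ZMod 2) (Set.range v) = ⊤) :
    Nat.card (Coker v →+ ZMod 2) = 2 * Nat.card (Sandpile v →+ ZMod 2) := by
  rw [Nat.card_congr (homCongr (ZMod 2) (splitEquiv v hv hs)),
    Nat.card_congr (homProd ℤ (Sandpile v) (ZMod 2)), Nat.card_prod,
    ← Nat.card_congr (zmultiplesHom (ZMod 2)), Nat.card_zmod]

/-- Homomorphisms to `F_2` and the reduction modulo 2. -/
def homDual (A : Type) [AddCommGroup A] : (ModN A 2 →ₗ[ZMod 2] ZMod 2) ≃ (A →+ ZMod 2) :=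
  (ModN.liftEquiv' (G := A) (n := 2) (H := ZMod 2)).trans
    (Equiv.subtypeUnivEquiv fun φ g => by
      have : ∀ a : ZMod 2, 2 • a = 0 := by decide
      exact this _)

/-- The Laplacian modulo two. -/
def lapTwo : Matrix (Sp r) (Sp r) (ZMod 2) := Matrix.of fun w w' => ((lap v w w' : ℤ) : ZMod 2)

/-- The kernel of the Laplacian modulo two. -/
def kerTwo : Submodule (ZMod 2) (Sp r → ZMod 2) := LinearMap.ker (Matrix.toLin' (lapTwo v))

theorem mem_kerTwo (f : Sp r → ZMod 2) : f ∈ kerTwo v ↔ (lapTwo v).mulVec f = 0 := by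
  unfold kerTwo
  rw [LinearMap.mem_ker, Matrix.toLin'_apply]

/-- The linear map attached to a function. -/
def pair (f : Sp r → ZMod 2) : (Sp r → ℤ) →+ ZMod 2 where
  toFun x := ∑ w, ((x w : ℤ) : ZMod 2) * f w
  map_zero' := by simp
  map_add' x y := by
    simp only [Pi.add_apply, Int.cast_add, add_mul, Finset.sum_add_distrib]

theorem pair_apply (f : Sp r → ZMod 2) (x : Sp r → ℤ) :
    pair f x = ∑ w, ((x w : ℤ) : ZMod 2) * f w := rfl

theorem pair_mulVec (hv : ∀ i, v i ≠ 0) (f : Sp r → ZMod 2) (y : Sp r → ℤ) :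
    pair f ((lap v).mulVec y) = ∑ w, ((y w : ℤ) : ZMod 2) * (lapTwo v).mulVec f w := by
  rw [pair_apply]
  simp only [Matrix.mulVec, dotProduct, Int.cast_sum, Int.cast_mul, Finset.sum_mul,
    Finset.mul_sum]
  rw [Finset.sum_comm]
  refine Finset.sum_congr rfl fun w _ => Finset.sum_congr rfl fun w' _ => ?_
  show _ = ((y w : ℤ) : ZMod 2) * (((lap v w w' : ℤ) : ZMod 2) * f w')
  rw [lap_comm v hv w w']
  ring

/-- Homomorphisms from the cokernel to `F_2` are the elements of the kernel modulo two. -/
theorem card_hom_coker' (hv : ∀ i, v i ≠ 0) :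
    Nat.card (Coker v →+ ZMod 2) = Nat.card (kerTwo v) := by
  let Φ : kerTwo v → (Coker v →+ ZMod 2) := fun f =>
    QuotientAddGroup.lift (image v).toAddSubgroup (pair (f : Sp r → ZMod 2)) (by
      rintro _ ⟨y, rfl⟩
      rw [Matrix.toLin'_apply, AddMonoidHom.mem_ker, pair_mulVec v hv,
        (mem_kerTwo v _).1 f.2]
      simp)
  have hΦ : ∀ f x, Φ f (mk v x) = pair (f : Sp r → ZMod 2) x := fun f x => rfl
  refine (Nat.card_congr (Equiv.ofBijective Φ ⟨?_, ?_⟩)).symm
  · intro f g hfg
    refine Subtype.ext (funext fun w => ?_)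
    have h1 := congrArg (fun φ => φ (mk v (Pi.single w 1))) hfg
    simp only [hΦ, pair_apply] at h1
    rw [Finset.sum_eq_single w, Finset.sum_eq_single w] at h1
    · simpa using h1
    · intro b _ hb; simp [Pi.single_eq_of_ne hb]
    · intro h; exact absurd (Finset.mem_univ _) h
    · intro b _ hb; simp [Pi.single_eq_of_ne hb]
    · intro h; exact absurd (Finset.mem_univ _) h
  · intro φ
    let f : Sp r → ZMod 2 := fun w => φ (mk v (Pi.single w 1))
    -- the pairing with `f` is `φ`
    have h1 : ∀ x, pair f x = φ (mk v x) := by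
      intro x
      let ψ : (Sp r → ℤ) →+ ZMod 2 :=
        φ.comp (QuotientAddGroup.mk' (image v).toAddSubgroup)
      have h2 : ∀ x, ψ x = φ (mk v x) := fun x => rfl
      rw [← h2]
      have h3 : pair f = ψ := by
        refine AddMonoidHom.functions_ext _ _ _ fun w c => ?_
        rw [pair_apply, Finset.sum_eq_single w]
        · rw [Pi.single_eq_same]
          have h4 : (Pi.single w c : Sp r → ℤ) = c • Pi.single w 1 := by
            rw [← Pi.single_smul]; simp
          rw [h4, map_zsmul, h2, zsmul_eq_mul]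
        · intro b _ hb; simp [Pi.single_eq_of_ne hb]
        · intro h; exact absurd (Finset.mem_univ _) h
      rw [h3]
    have hf : f ∈ kerTwo v := by
      rw [mem_kerTwo]
      funext w
      have h2 := pair_mulVec v hv f (Pi.single w 1)
      rw [h1, (mk_eq_zero v _).2 ⟨Pi.single w 1, Matrix.toLin'_apply _ _⟩, map_zero,
        Finset.sum_eq_single w] at h2
      · rw [Pi.single_eq_same] at h2
        simpa using h2.symm
      · intro b _ hb; simp [Pi.single_eq_of_ne hb]
      · intro h; exact absurd (Finset.mem_univ _) h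
    refine ⟨⟨f, hf⟩, ?_⟩
    ext c
    obtain ⟨x, rfl⟩ := mk_surj v c
    rw [hΦ, h1]

theorem d_eq (hv : ∀ i, v i ≠ 0) (hs : Submodule.span (ZMod 2) (Set.range v) = ⊤) :
    finrank (ZMod 2) (kerTwo v) = d v + 1 := by
  have h1 : Nat.card (kerTwo v) = 2 ^ finrank (ZMod 2) (kerTwo v) := by
    rw [Module.natCard_eq_pow_finrank (K := ZMod 2), Nat.card_zmod]
  have h2 := card_hom_coker v hv hs
  rw [card_hom_coker' v hv, h1] at h2
  have hfin : Finite (Sandpile v →+ ZMod 2) := by
    refine Nat.finite_of_card_ne_zero ?_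
    intro h
    rw [h, mul_zero] at h2
    exact absurd h2 (by positivity)
  have h3 : Finite (Dual (ZMod 2) (ModN (Sandpile v) 2)) :=
    Finite.of_equiv _ (homDual (Sandpile v)).symm
  have h4 : Nat.card (Sandpile v →+ ZMod 2) = 2 ^ d v := by
    rw [← Nat.card_congr (homDual (Sandpile v))]
    show Nat.card (Dual (ZMod 2) (ModN (Sandpile v) 2)) = _
    rw [Module.natCard_eq_pow_finrank (K := ZMod 2), Nat.card_zmod, Subspace.dual_finrank_eq]
    rfl
  rw [h4, ← pow_succ'] at h2
  exact Nat.pow_right_injective (le_refl 2) h2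

/-! ### The parity of `d` -/

theorem finrank_sp : finrank (ZMod 2) (Sp r → ZMod 2) = 2 ^ r := by
  rw [finrank_fintype_fun_eq_card]
  simp [ZMod.card]

theorem cast_of_odd {m : ℕ} (h : Odd m) : (m : ZMod 2) = 1 := by
  rw [ZMod.natCast_eq_one_iff_odd]; exact h

theorem cast_of_even {m : ℕ} (h : Even m) : (m : ZMod 2) = 0 := by
  rw [ZMod.natCast_eq_zero_iff_even]; exact h

theorem lapTwo_apply (hv : ∀ i, v i ≠ 0) (w w' : Sp r) :
    lapTwo v w w' = (if w = w' then (n : ZMod 2) else 0) + (mult v (w + w') : ZMod 2) := by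
  show ((lap v w w' : ℤ) : ZMod 2) = _
  rw [lap_apply v hv]
  push_cast
  have : ∀ a b : ZMod 2, a - b = a + b := by decide
  rw [this]

/-- All multiplicities odd. -/
theorem d_of_odd (hr : 1 ≤ r) (hv : ∀ i, v i ≠ 0)
    (hs : Submodule.span (ZMod 2) (Set.range v) = ⊤) (h : ∀ u, u ≠ 0 → Odd (mult v u)) :
    d v = 2 ^ r - 2 := by
  have h0 : mult v 0 = 0 := by
    unfold mult
    rw [Finset.card_eq_zero, Finset.filter_eq_empty_iff]
    intro i _
    exact hv i
  -- the number of generators is odd
  have hn : (n : ZMod 2) = 1 := by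
    have h1 := congrArg (fun m : ℕ => (m : ZMod 2)) (sum_mult_nat v)
    simp only [Nat.cast_sum] at h1
    rw [← h1, ← Finset.add_sum_erase Finset.univ _ (Finset.mem_univ (0 : Sp r)), h0,
      Finset.sum_congr rfl fun u hu => cast_of_odd (h u (Finset.ne_of_mem_erase hu)),
      Finset.sum_const, Finset.card_erase_of_mem (Finset.mem_univ _), Finset.card_univ,
      nsmul_eq_mul, mul_one]
    have h2 : Fintype.card (Sp r) = 2 ^ r := by simp [ZMod.card]
    rw [h2, Nat.cast_zero, zero_add]
    refine cast_of_odd ?_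
    refine Nat.Even.sub_odd (Nat.one_le_two_pow) ?_ odd_one
    exact (Nat.even_pow.2 ⟨even_two, by omega⟩)
  have hL : ∀ w w', lapTwo v w w' = 1 := by
    intro w w'
    rw [lapTwo_apply v hv]
    by_cases hw : w = w'
    · subst hw
      rw [if_pos rfl, hn, add_self', h0, Nat.cast_zero, add_zero]
    · rw [if_neg hw, cast_of_odd (h _ _), zero_add]
      rw [← sub_eq_add']
      exact sub_ne_zero.2 hw
  let s : (Sp r → ZMod 2) →ₗ[ZMod 2] ZMod 2 :=
    { toFun := fun f => ∑ w, f w
      map_add' := fun f g => by simp [Finset.sum_add_distrib]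
      map_smul' := fun c f => by simp [Finset.mul_sum] }
  have hs' : ∀ f, s f = ∑ w, f w := fun f => rfl
  have hk : kerTwo v = LinearMap.ker s := by
    ext f
    rw [mem_kerTwo, LinearMap.mem_ker, hs']
    constructor
    · intro hf
      have := congrFun hf 0
      simp only [Matrix.mulVec, dotProduct, hL, one_mul, Pi.zero_apply] at this
      exact this
    · intro hf
      funext w
      simp only [Matrix.mulVec, dotProduct, hL, one_mul, Pi.zero_apply]
      exact hf
  have hsurj : LinearMap.range s = ⊤ := by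
    rw [LinearMap.range_eq_top]
    intro c
    refine ⟨Pi.single 0 c, ?_⟩
    rw [hs']
    simp
  have h3 := LinearMap.finrank_range_add_finrank_ker s
  rw [hsurj, finrank_top, finrank_self, ← hk, d_eq v hv hs, finrank_sp] at h3
  omega

/-- Some multiplicity even. -/
theorem d_odd (hr : 1 ≤ r) (hv : ∀ i, v i ≠ 0)
    (hs : Submodule.span (ZMod 2) (Set.range v) = ⊤) {g : Sp r} (hg : g ≠ 0)
    (he : Even (mult v g)) : Odd (d v) := by
  let B : (Sp r → ZMod 2) →ₗ[ZMod 2] (Sp r → ZMod 2) →ₗ[ZMod 2] ZMod 2 :=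
    LinearMap.mk₂ (ZMod 2) (fun z a => ∑ w, a w * (lapTwo v).mulVec z (w + g))
      (fun z z' a => by
        simp only [Matrix.mulVec_add, Pi.add_apply, mul_add, Finset.sum_add_distrib])
      (fun c z a => by
        simp only [Matrix.mulVec_smul, Pi.smul_apply, smul_eq_mul, Finset.mul_sum]
        exact Finset.sum_congr rfl fun w _ => by ring)
      (fun z a a' => by
        simp only [Pi.add_apply, add_mul, Finset.sum_add_distrib])
      (fun c z a => by
        simp only [Pi.smul_apply, smul_eq_mul, Finset.mul_sum]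
        exact Finset.sum_congr rfl fun w _ => by ring)
  have hB : ∀ z a, B z a = ∑ w, a w * (lapTwo v).mulVec z (w + g) := fun z a => rfl
  have halt : ∀ z, B z z = 0 := by
    intro z
    rw [hB]
    simp only [Matrix.mulVec, dotProduct, Finset.mul_sum]
    rw [← Finset.sum_product']
    refine Finset.sum_involution (fun p _ => p.swap) ?_ ?_ ?_ ?_
    · rintro ⟨w, w'⟩ -
      simp only [Prod.swap]
      rw [lapTwo_apply v hv, lapTwo_apply v hv]
      have e1 : (w + g = w') ↔ (w' + g = w) := by
        constructor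
        · rintro rfl; rw [add_assoc, add_self', add_zero]
        · rintro rfl; rw [add_assoc, add_self', add_zero]
      have e2 : w' + g + w = w + g + w' := by abel
      simp only [e1, e2]
      have e3 : ∀ a b c d : ZMod 2, a * ((c + d) * b) + b * ((c + d) * a) = 0 := by decide
      exact e3 _ _ _ _
    · rintro ⟨w, w'⟩ - hne heq
      simp only [Prod.swap, Prod.mk.injEq] at heq
      apply hne
      rw [heq.1, lapTwo_apply v hv]
      have e1 : ¬ (w + g = w) := by
        intro h
        exact hg (by simpa using h)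
      have e2 : w + g + w = g := by
        rw [add_comm w g, add_assoc, add_self', add_zero]
      rw [if_neg e1, e2, cast_of_even he]
      simp
    · intro p _
      exact Finset.mem_univ _
    · intro p _
      exact Prod.swap_swap p
  have hrad : rad B ⊤ = kerTwo v := by
    ext z
    rw [mem_rad, mem_kerTwo]
    constructor
    · rintro ⟨-, h⟩
      funext w
      have h1 := h (Pi.single (w + g) 1) Submodule.mem_top
      rw [hB, Finset.sum_eq_single (w + g)] at h1
      · rw [Pi.single_eq_same, one_mul, add_assoc, add_self', add_zero] at h1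
        exact h1
      · intro b _ hb; rw [Pi.single_eq_of_ne hb, zero_mul]
      · intro h; exact absurd (Finset.mem_univ _) h
    · intro h
      refine ⟨Submodule.mem_top, fun a _ => ?_⟩
      rw [hB, h]
      simp
  have h1 := even_rank B halt _ ⊤ rfl
  rw [hrad, finrank_top, finrank_sp, d_eq v hv hs] at h1
  have h2 : Even (2 ^ r) := Nat.even_pow.2 ⟨even_two, by omega⟩
  rw [Nat.even_add] at h1
  have h3 := h1.1 h2
  rw [Nat.even_add_one, Nat.not_even_iff_odd] at h3
  exact h3

/-! ### Equal valuations -/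

theorem odd_part {x : ℤ} (hx : 0 < x) : ∃ o : ℤ, Odd o ∧ x = 2 ^ padicValInt 2 x * o := by
  obtain ⟨k, m, hm, h⟩ := Nat.exists_eq_two_pow_mul_odd (n := x.natAbs) (by omega)
  have h1 : padicValInt 2 x = k := by
    unfold padicValInt
    rw [h, padicValNat.mul (by positivity) hm.pos.ne', padicValNat.prime_pow,
      padicValNat.eq_zero_of_not_dvd (by
        intro h2
        rw [← even_iff_two_dvd] at h2
        exact (Nat.not_even_iff_odd.2 hm) h2), add_zero]
  refine ⟨m, by exact_mod_cast hm, ?_⟩
  rw [h1]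
  have h2 : (x.natAbs : ℤ) = x := Int.natAbs_of_nonneg hx.le
  rw [← h2, h]
  push_cast
  rfl

theorem odd_sum_odd {ι : Type} (s : Finset ι) (f : ι → ℤ) (hf : ∀ i ∈ s, Odd (f i))
    (hs : Odd s.card) : Odd (∑ i ∈ s, f i) := by
  classical
  have key : ∀ s : Finset ι, (∀ i ∈ s, Odd (f i)) → (Odd (∑ i ∈ s, f i) ↔ Odd s.card) := by
    intro s
    induction s using Finset.induction_on with
    | empty => intro _; simp
    | insert a s ha ih =>
      intro h
      have h1 := ih fun i hi => h i (Finset.mem_insert_of_mem hi)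
      have h2 := h a (Finset.mem_insert_self _ _)
      rw [Finset.sum_insert ha, Finset.card_insert_of_notMem ha, Int.odd_add,
        Nat.odd_add_one, ← h1, Int.not_odd_iff_even]
      exact ⟨fun h3 => h3.1 h2, fun h3 => ⟨fun _ => h3, fun _ => h2⟩⟩
  exact (key s hf).2 hs

theorem odd_of_equal (hr : 1 ≤ r) (hadm : Admissible v)
    (h : ∀ u u' : Sp r, u ≠ 0 → u' ≠ 0 → padicValInt 2 (eig v u) = padicValInt 2 (eig v u')) :
    ∀ u, u ≠ 0 → Odd (mult v u) := by
  obtain ⟨hv, hs, hgcd⟩ := hadm
  -- the common valuation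
  obtain ⟨u₀, hu₀⟩ : ∃ u : Sp r, u ≠ 0 := by
    refine ⟨fun _ => 1, ?_⟩
    intro h
    have := congrFun h (⟨0, hr⟩ : Fin r)
    exact one_ne_zero this
  let k := padicValInt 2 (eig v u₀)
  -- odd parts
  have hodd : ∀ u : Sp r, u ≠ 0 → ∃ o : ℤ, Odd o ∧ eig v u = 2 ^ k * o := by
    intro u hu
    obtain ⟨o, ho, he⟩ := odd_part (eig_pos v hs hu)
    rw [h u u₀ hu hu₀] at he
    exact ⟨o, ho, he⟩
  choose! o ho heq using hodd
  have hcard : Odd ((Finset.univ : Finset (Sp r)).erase 0).card := by
    rw [Finset.card_erase_of_mem (Finset.mem_univ _), Finset.card_univ]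
    have h2 : Fintype.card (Sp r) = 2 ^ r := by simp [ZMod.card]
    rw [h2]
    exact Nat.Even.sub_odd Nat.one_le_two_pow (Nat.even_pow.2 ⟨even_two, by omega⟩) odd_one
  -- inversion
  have key : ∀ w : Sp r, w ≠ 0 → ∃ t : ℤ, Odd t ∧ (2 ^ r * mult v w : ℤ) = 2 ^ k * t := by
    intro w hw
    refine ⟨-(∑ u ∈ (Finset.univ : Finset (Sp r)).erase 0, o u * chi u w), ?_, ?_⟩
    · refine Odd.neg (odd_sum_odd _ _ (fun u hu => ?_) hcard)
      refine (ho u (Finset.ne_of_mem_erase hu)).mul ?_
      unfold chi
      split_ifs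
      · exact odd_one
      · exact odd_neg_one
    · have h1 := sum_eig v hw
      rw [← Finset.add_sum_erase Finset.univ _ (Finset.mem_univ (0 : Sp r)), eig_zero,
        zero_mul, zero_add] at h1
      rw [Finset.sum_congr rfl fun u hu => by
        rw [heq u (Finset.ne_of_mem_erase hu), mul_assoc], ← Finset.mul_sum] at h1
      linarith
  -- the valuation is at most `r`
  have hkr : k ≤ r := by
    by_contra hc
    push Not at hc
    have heven : ∀ w : Sp r, 2 ∣ mult v w := by
      intro w
      by_cases hw : w = 0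
      · subst hw
        have h0 : mult v 0 = 0 := by
          unfold mult
          rw [Finset.card_eq_zero, Finset.filter_eq_empty_iff]
          intro i _
          exact hv i
        rw [h0]; exact dvd_zero 2
      · obtain ⟨t, -, ht⟩ := key w hw
        have h2 : k = r + (k - r - 1 + 1) := by omega
        rw [h2, pow_add, mul_assoc] at ht
        have h3 := mul_left_cancel₀ (by positivity : (2 ^ r : ℤ) ≠ 0) ht
        have h4 : (2 : ℤ) ∣ mult v w := by
          rw [h3, pow_succ]
          exact ⟨2 ^ (k - r - 1) * t, by ring⟩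
        exact_mod_cast h4
    have h5 : 2 ∣ (Finset.univ.filter fun u => 0 < mult v u).gcd (mult v) :=
      Finset.dvd_gcd fun u _ => heven u
    rw [hgcd] at h5
    exact absurd h5 (by decide)
  intro w hw
  obtain ⟨t, ht, hE⟩ := key w hw
  have h2 : (2 : ℤ) ^ r = 2 ^ k * 2 ^ (r - k) := by
    rw [← pow_add]; congr 1; omega
  rw [h2, mul_assoc] at hE
  have h3 := mul_left_cancel₀ (by positivity : (2 ^ k : ℤ) ≠ 0) hE
  rw [← h3] at ht
  have h4 := (Int.odd_mul.1 ht).2
  exact_mod_cast h4

end chars

/-! ### The counterexamples -/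

section example_

variable {r : ℕ}

/-- The index type: all nonzero vectors, and two more. -/
abbrev Idx (r : ℕ) : Type := {u : Sp r // u ≠ 0} ⊕ Fin 2

/-- The all-ones vector. -/
def ones : Sp r := fun _ => 1

/-- The generators: every nonzero vector once, and the all-ones vector twice more. -/
def gens : Idx r → Sp r := Sum.elim Subtype.val fun _ => ones

/-- The generators as a list. -/
noncomputable def exList (r : ℕ) : Fin (Fintype.card (Idx r)) → Sp r :=
  fun i => gens ((Fintype.equivFin (Idx r)).symm i)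

theorem mult_exList (u : Sp r) :
    mult (exList r) u = (if u = 0 then 0 else 1) + (if u = ones then 2 else 0) := by
  have h1 : mult (exList r) u = (Finset.univ.filter fun j : Idx r => gens j = u).card := by
    unfold mult
    refine Finset.card_bij (fun i _ => (Fintype.equivFin (Idx r)).symm i) ?_ ?_ ?_
    · intro i hi
      simp only [Finset.mem_filter, Finset.mem_univ, true_and] at hi ⊢
      exact hi
    · intro i _ j _ hij
      exact (Fintype.equivFin (Idx r)).symm.injective hij
    · intro j hj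
      refine ⟨Fintype.equivFin (Idx r) j, ?_, by simp⟩
      simp only [Finset.mem_filter, Finset.mem_univ, true_and] at hj ⊢
      unfold exList
      rw [Equiv.symm_apply_apply]
      exact hj
  rw [h1, Finset.card_filter, Fintype.sum_sum_type]
  have e1 : (∑ x : {u : Sp r // u ≠ 0}, if gens (Sum.inl x) = u then 1 else 0) =
      if u = 0 then 0 else 1 := by
    by_cases hu : u = 0
    · rw [if_pos hu]
      refine Finset.sum_eq_zero fun x _ => ?_
      rw [if_neg]
      show ¬ (x : Sp r) = u
      rw [hu]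
      exact x.2
    · rw [if_neg hu, Finset.sum_eq_single (⟨u, hu⟩ : {u : Sp r // u ≠ 0})]
      · exact if_pos rfl
      · intro b _ hb
        rw [if_neg]
        intro h
        exact hb (Subtype.ext h)
      · intro h; exact absurd (Finset.mem_univ _) h
  have e2 : (∑ x : Fin 2, if gens (Sum.inr x : Idx r) = u then 1 else 0) =
      if u = ones then 2 else 0 := by
    have : ∀ x : Fin 2, gens (Sum.inr x : Idx r) = ones := fun x => rfl
    simp only [this, Finset.sum_const, Finset.card_univ, Fintype.card_fin]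
    by_cases hu : u = ones
    · rw [if_pos hu, if_pos hu.symm]; rfl
    · rw [if_neg hu, if_neg (Ne.symm hu)]; rfl
  rw [e1, e2]

theorem card_idx : Fintype.card (Idx r) = 2 ^ r + 1 := by
  have h2 : Fintype.card (Sp r) = 2 ^ r := by simp [ZMod.card]
  have h3 : Fintype.card {u : Sp r // u ≠ 0} = 2 ^ r - 1 := by
    rw [Fintype.card_subtype_compl, Fintype.card_subtype_eq, h2]
  rw [Fintype.card_sum, h3, Fintype.card_fin]
  have := Nat.one_le_two_pow (n := r)
  omega

theorem ones_ne_zero (hr : 1 ≤ r) : (ones : Sp r) ≠ 0 := by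
  intro h
  have := congrFun h (⟨0, hr⟩ : Fin r)
  exact one_ne_zero this

theorem exList_ne_zero (hr : 1 ≤ r) : ∀ i, exList r i ≠ 0 := by
  intro i
  unfold exList gens
  rcases (Fintype.equivFin (Idx r)).symm i with x | x
  · exact x.2
  · exact ones_ne_zero hr

theorem exList_span : Submodule.span (ZMod 2) (Set.range (exList r)) = ⊤ := by
  rw [eq_top_iff]
  intro u _
  by_cases hu : u = 0
  · rw [hu]; exact Submodule.zero_mem _
  · refine Submodule.subset_span ⟨Fintype.equivFin (Idx r) (Sum.inl ⟨u, hu⟩), ?_⟩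
    unfold exList
    rw [Equiv.symm_apply_apply]
    rfl

theorem eig_exList {u : Sp r} (hu : u ≠ 0) :
    eig (exList r) u = 2 ^ r + 2 - 2 * chi u ones := by
  have hcard : ((Fintype.card (Idx r) : ℕ) : ℤ) = 2 ^ r + 1 := by
    rw [card_idx]; push_cast; ring
  rw [eig_eq, sum_mult (exList r) (chi u), hcard]
  have h1 : ∀ x : Sp r, (mult (exList r) x : ℤ) * chi u x =
      chi x u - (if x = 0 then 1 else 0) + (if x = ones then 2 * chi u ones else 0) := by
    intro x
    rw [mult_exList, chi_comm x u]
    push_cast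
    by_cases h0 : x = 0
    · subst h0
      rw [chi_zero]
      by_cases h1 : (0 : Sp r) = ones
      · rw [← h1, chi_zero]; simp
      · simp [h1]
    · by_cases h1 : x = ones
      · subst h1; simp [h0]; ring
      · simp [h0, h1]
  rw [Finset.sum_congr rfl fun x _ => h1 x, Finset.sum_add_distrib, Finset.sum_sub_distrib,
    sum_chi, if_neg hu, Finset.sum_ite_eq' Finset.univ (0 : Sp r),
    Finset.sum_ite_eq' Finset.univ (ones : Sp r)]
  simp only [Finset.mem_univ, if_true]
  push_cast
  ring

theorem exList_gcd (hr : 2 ≤ r) : (Finset.univ.filter fun u => 0 < mult (exList r) u).gcd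
    (mult (exList r)) = 1 := by
  -- a vector of multiplicity one
  have h0 : (Pi.single (⟨0, by omega⟩ : Fin r) 1 : Sp r) ≠ 0 := by
    intro h
    have := congrFun h ⟨0, by omega⟩
    rw [Pi.single_eq_same] at this
    exact one_ne_zero this
  have h1 : (Pi.single (⟨0, by omega⟩ : Fin r) 1 : Sp r) ≠ ones := by
    intro h
    have := congrFun h ⟨1, by omega⟩
    rw [Pi.single_eq_of_ne (by simp)] at this
    exact zero_ne_one this
  have h2 : mult (exList r) (Pi.single (⟨0, by omega⟩ : Fin r) 1 : Sp r) = 1 := by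
    rw [mult_exList, if_neg h0, if_neg h1]
  have h3 := Finset.gcd_dvd (s := Finset.univ.filter fun u => 0 < mult (exList r) u)
    (f := mult (exList r)) (Finset.mem_filter.2 ⟨Finset.mem_univ _, by rw [h2]; norm_num⟩)
  rw [h2] at h3
  exact Nat.dvd_one.1 h3

theorem exList_odd {u : Sp r} (hu : u ≠ 0) : Odd (mult (exList r) u) := by
  rw [mult_exList, if_neg hu]
  split_ifs
  · decide
  · decide

theorem val_ne (hr : 2 ≤ r) : padicValInt 2 (2 ^ r) ≠ padicValInt 2 (2 ^ r + 4) := by
  have h1 : padicValInt 2 (2 ^ r) = r := by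
    unfold padicValInt
    rw [Int.natAbs_pow]
    exact padicValNat.prime_pow r
  rw [h1]
  intro h
  obtain ⟨o, ho, he⟩ := odd_part (x := (2 : ℤ) ^ r + 4) (by positivity)
  rw [← h] at he
  by_cases h2 : r = 2
  · subst h2
    norm_num at he
    have : o = 2 := by omega
    rw [this] at ho
    exact absurd ho (by decide)
  · -- `2 ^ r` divides 4
    have h3 : (8 : ℤ) ∣ 2 ^ r := by
      have : (2 : ℤ) ^ r = 2 ^ 3 * 2 ^ (r - 3) := by
        rw [← pow_add]; congr 1; omega
      rw [this]
      exact ⟨2 ^ (r - 3), by norm_num⟩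
    have h4 : (8 : ℤ) ∣ 2 ^ r + 4 := by
      rw [he]
      exact Dvd.dvd.mul_right h3 o
    have h5 : (8 : ℤ) ∣ 4 := (dvd_add_right h3).1 h4
    exact absurd h5 (by decide)

theorem exList_vals (hr : 2 ≤ r) : ∃ u u' : Sp r, u ≠ 0 ∧ u' ≠ 0 ∧
    padicValInt 2 (eig (exList r) u) ≠ padicValInt 2 (eig (exList r) u') := by
  let a : Sp r := Pi.single (⟨0, by omega⟩ : Fin r) 1
  let b : Sp r := Pi.single (⟨1, by omega⟩ : Fin r) 1
  have ha : a ≠ 0 := by
    intro h
    have := congrFun h ⟨0, by omega⟩
    simp only [a, Pi.single_eq_same] at this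
    exact one_ne_zero this
  have hab : a + b ≠ 0 := by
    intro h
    have := congrFun h ⟨0, by omega⟩
    simp only [a, b, Pi.add_apply, Pi.single_eq_same] at this
    rw [Pi.single_eq_of_ne (by simp), add_zero] at this
    exact one_ne_zero this
  have h1 : chi a ones = -1 := by
    unfold chi
    rw [single_dotProduct, one_mul]
    rfl
  have h2 : chi b ones = -1 := by
    unfold chi
    rw [single_dotProduct, one_mul]
    rfl
  have h3 : chi (a + b) ones = 1 := by
    rw [chi_comm, chi_add, chi_comm _ a, chi_comm _ b, h1, h2]; norm_num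
  refine ⟨a + b, a, hab, ha, ?_⟩
  rw [eig_exList hab, eig_exList ha, h1, h3]
  have e1 : (2 : ℤ) ^ r + 2 - 2 * 1 = 2 ^ r := by ring
  have e2 : (2 : ℤ) ^ r + 2 - 2 * (-1) = 2 ^ r + 4 := by ring
  rw [e1, e2]
  exact val_ne hr

end example_

/-- The parity of `d`: it equals `2 ^ r - 2` if all multiplicities are odd and is odd otherwise;
it equals `2 ^ r - 2` if all the valuations are equal; but for every `r ≥ 2` there are
generators whose valuations are not all equal and for which `d` is even. -/
theorem result :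
    (∀ (r n : ℕ) (v : Fin n → Sp r), 1 ≤ r → Admissible v →
      ((∀ u, u ≠ 0 → Odd (mult v u)) → d v = 2 ^ r - 2) ∧
      ((∃ u, u ≠ 0 ∧ Even (mult v u)) → Odd (d v)) ∧
      ((∀ u u', u ≠ 0 → u' ≠ 0 → padicValInt 2 (eig v u) = padicValInt 2 (eig v u')) →
        d v = 2 ^ r - 2)) ∧
    (∀ r : ℕ, 2 ≤ r → ∃ (n : ℕ) (v : Fin n → Sp r), Admissible v ∧
      (∃ u u', u ≠ 0 ∧ u' ≠ 0 ∧ padicValInt 2 (eig v u) ≠ padicValInt 2 (eig v u')) ∧
      Even (d v)) := by
  refine ⟨fun r n v hr hadm => ⟨?_, ?_, ?_⟩, fun r hr => ?_⟩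
  · exact d_of_odd v hr hadm.1 hadm.2.1
  · rintro ⟨g, hg, he⟩
    exact d_odd v hr hadm.1 hadm.2.1 hg he
  · intro h
    exact d_of_odd v hr hadm.1 hadm.2.1 (odd_of_equal v hr hadm h)
  · have hadm : Admissible (exList r) :=
      ⟨exList_ne_zero (by omega), exList_span, exList_gcd hr⟩
    refine ⟨_, exList r, hadm, exList_vals hr, ?_⟩
    rw [d_of_odd _ (by omega) hadm.1 hadm.2.1 fun u hu => exList_odd hu]
    obtain ⟨s, rfl⟩ : ∃ s, r = s + 1 := ⟨r - 1, by omega⟩
    have := Nat.one_le_two_pow (n := s)
    exact ⟨2 ^ s - 1, by rw [pow_succ]; omega⟩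

end Pool.Agent.Results.MP_8ee885_co.ParityOfRank
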